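import Pool.Agent.Lib.MP_b5021c_nt.IfaceB

/-!
# Row MUL of board b5: the multi-parameter lemma
-/

namespace Pool.Agent.B5.H23

open Pool.Agent.B5 Polynomial Filter Topology

variable {L : Type} [AddCommGroup L] {ι : Type} [Fintype ι]

/-- The polynomial `τ ↦ mev (s, τ t')`. -/
noncomputable def PP (u : AddChar L Circle) (lam : L →+ ℤ) (mu : ι → L →+ ℤ) (s : ℂ) (t : ι → ℂ)
    (p : CA L) : ℂ[X] :=
  ∑ a ∈ p.coeff.support, Polynomial.monomial (∑ i, (mu i a).toNat)
    (p.coeff a * (u a : ℂ) * (s ^ (lam a).toNat * ∏ i, t i ^ (mu i a).toNat))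

theorem mev_option (u : AddChar L Circle) (lam : L →+ ℤ) (mu : ι → L →+ ℤ) (s : ℂ) (t : ι → ℂ)
    (p : CA L) :
    mev (ι := Option ι) u (fun o => o.elim lam mu) (fun o => o.elim s t) p =
      ∑ a ∈ p.coeff.support, p.coeff a * (u a : ℂ) *
        (s ^ (lam a).toNat * ∏ i, t i ^ (mu i a).toNat) := by
  unfold mev
  rw [Finsupp.sum]
  refine Finset.sum_congr rfl fun a _ => ?_
  rw [Fintype.prod_option]
  simp

theorem PP_eval (u : AddChar L Circle) (lam : L →+ ℤ) (mu : ι → L →+ ℤ) (s : ℂ) (t : ι → ℂ)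
    (p : CA L) (r : ℂ) :
    (PP u lam mu s t p).eval r =
      mev (ι := Option ι) u (fun o => o.elim lam mu) (fun o => o.elim s (fun i => r * t i)) p := by
  rw [mev_option, PP, Polynomial.eval_finsetSum]
  refine Finset.sum_congr rfl fun a _ => ?_
  rw [Polynomial.eval_monomial]
  have h : ∏ i, (r * t i) ^ (mu i a).toNat = r ^ (∑ i, (mu i a).toNat) * ∏ i, t i ^ (mu i a).toNat := by
    rw [← Finset.prod_pow_eq_pow_sum, ← Finset.prod_mul_distrib]
    refine Finset.prod_congr rfl fun i _ => ?_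
    rw [mul_pow]
  rw [h]
  ring

theorem PP_coeff (u : AddChar L Circle) (lam : L →+ ℤ) (mu : ι → L →+ ℤ) (s : ℂ) (t : ι → ℂ)
    (p : CA L) (h0 : p.coeff 0 ≠ 0) (hN : ∀ i, Nn (mu i) p)
    (hP : ∀ a ∈ p.coeff.support, a ≠ 0 → 0 < ∑ i, mu i a) :
    (PP u lam mu s t p).coeff 0 = p.coeff 0 := by
  rw [PP, Polynomial.finsetSum_coeff, Finset.sum_eq_single 0]
  · rw [Polynomial.coeff_monomial]
    simp
  · intro a ha hne
    rw [Polynomial.coeff_monomial, if_neg]
    intro h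
    have h1 : ∀ i, (mu i a).toNat = 0 := fun i =>
      (Finset.sum_eq_zero_iff.mp h) i (Finset.mem_univ i)
    have h2 : ∀ i, mu i a = 0 := fun i => le_antisymm (Int.toNat_eq_zero.mp (h1 i)) (hN i a ha)
    have h3 := hP a ha hne
    simp [h2] at h3
  · intro h
    exact absurd (Finsupp.mem_support_iff.mpr h0) h

theorem PP_deg (u : AddChar L Circle) (lam : L →+ ℤ) (mu : ι → L →+ ℤ) (s : ℂ) (t : ι → ℂ)
    (p : CA L) : (PP u lam mu s t p).natDegree ≤ p.coeff.support.sup (fun a => ∑ i, (mu i a).toNat) := by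
  rw [PP]
  refine Polynomial.natDegree_sum_le_of_forall_le _ _ fun a ha => ?_
  exact le_trans (Polynomial.natDegree_monomial_le _)
    (Finset.le_sup (f := fun a => ∑ i, (mu i a).toNat) ha)

theorem exists_rho (t : ι → ℂ) (ht : ∀ i, ‖t i‖ < 1) : ∃ r : ℝ, 0 < r ∧ r < 1 ∧ ∀ i, ‖t i‖ ≤ r := by
  classical
  by_cases hne : Nonempty ι
  · obtain ⟨j, hj⟩ := Finite.exists_max (fun i => ‖t i‖)
    refine ⟨(1 + ‖t j‖) / 2, by positivity, by linarith [ht j], fun i => ?_⟩
    linarith [hj i, ht j]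
  · exact ⟨1 / 2, by norm_num, by norm_num, fun i => absurd ⟨i⟩ hne⟩

theorem mul (h1 : Multi1S) (h3 : A3bS) : MultiS := by
  intro L _ _ _ p hp ι _ mu hN hP u t ht
  obtain ⟨h0, lam, hpos, hsl⟩ := hp
  obtain ⟨r, hr0, hr1, hr⟩ := exists_rho t ht
  have hrc : (r : ℂ) ≠ 0 := by exact_mod_cast hr0.ne'
  set t' : ι → ℂ := fun i => t i / r with ht'
  have ht'1 : ∀ i, ‖t' i‖ ≤ 1 := by
    intro i
    simp only [ht', norm_div, Complex.norm_real, Real.norm_of_nonneg hr0.le]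
    exact (div_le_one hr0).mpr (hr i)
  set m := p.coeff.support.sup (fun a => ∑ i, (mu i a).toNat) with hm
  have key : ∀ s : ℝ, 0 ≤ s → s < 1 → ‖p.coeff 0‖ * (1 - r) ^ m ≤
      ‖∑ a ∈ p.coeff.support, p.coeff a * (u a : ℂ) *
        ((s : ℂ) ^ (lam a).toNat * ∏ i, t i ^ (mu i a).toNat)‖ := by
    intro s hs0 hs1
    have hs : ‖(s : ℂ)‖ < 1 := by
      rwa [Complex.norm_real, Real.norm_of_nonneg hs0]
    have hz : ZF (PP u lam mu (s : ℂ) t' p) := by
      intro x hx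
      rw [PP_eval]
      refine h1 L p lam h0 hpos hsl ι mu hN u (s : ℂ) (fun i => x * t' i) hs fun i => ?_
      rw [norm_mul]
      nlinarith [norm_nonneg x, norm_nonneg (t' i), ht'1 i]
    have h := h3 (PP u lam mu (s : ℂ) t' p) m (PP_deg u lam mu (s : ℂ) t' p) hz (r : ℂ) (by
      rw [Complex.norm_real, Real.norm_of_nonneg hr0.le]
      exact hr1.le)
    rw [PP_coeff u lam mu (s : ℂ) t' p h0 hN hP, PP_eval, mev_option, Complex.norm_real,
      Real.norm_of_nonneg hr0.le] at h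
    have h5 : ∀ i, (r : ℂ) * t' i = t i := by
      intro i
      simp only [ht']
      field_simp
    refine h.trans (le_of_eq ?_)
    congr 1
    refine Finset.sum_congr rfl fun a _ => ?_
    congr 2
    refine Finset.prod_congr rfl fun i _ => ?_
    rw [h5]
  have hcont : Continuous fun s : ℝ => ‖∑ a ∈ p.coeff.support, p.coeff a * (u a : ℂ) *
        ((s : ℂ) ^ (lam a).toNat * ∏ i, t i ^ (mu i a).toNat)‖ := by
    refine continuous_norm.comp (continuous_finsetSum _ fun a _ => ?_)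
    refine continuous_const.mul (Continuous.mul ?_ continuous_const)
    exact Complex.continuous_ofReal.pow _
  have hlim := hcont.continuousWithinAt (s := Set.Iio (1 : ℝ)) (x := 1)
  have hev : ∀ᶠ s : ℝ in 𝓝[<] (1 : ℝ), ‖p.coeff 0‖ * (1 - r) ^ m ≤
      ‖∑ a ∈ p.coeff.support, p.coeff a * (u a : ℂ) *
        ((s : ℂ) ^ (lam a).toNat * ∏ i, t i ^ (mu i a).toNat)‖ := by
    filter_upwards [Ioo_mem_nhdsLT (show (0 : ℝ) < 1 by norm_num)] with s hs
    exact key s hs.1.le hs.2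
  have h6 := ge_of_tendsto hlim hev
  beta_reduce at h6
  have h7 : 0 < ‖p.coeff 0‖ * (1 - r) ^ m :=
    mul_pos (norm_pos_iff.mpr h0) (pow_pos (by linarith) _)
  have h8 : mev u mu t p = ∑ a ∈ p.coeff.support, p.coeff a * (u a : ℂ) *
        (((1 : ℝ) : ℂ) ^ (lam a).toNat * ∏ i, t i ^ (mu i a).toNat) := by
    unfold mev
    rw [Finsupp.sum]
    refine Finset.sum_congr rfl fun a _ => ?_
    rw [Complex.ofReal_one, one_pow, one_mul]
  rw [h8]
  intro h9
  rw [h9, norm_zero] at h6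
  linarith

end Pool.Agent.B5.H23
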